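import Pool.Agent.K4H75.EC.Main

set_option autoImplicit false

namespace Pool.Agent.Results.MP_20b97f_co.ClosedTrail

open Pool.Agent.H126R2.CDC (MGraph)
open Pool.Agent.H126R2.NC (InCone InLat InIntCone)

/-- Let `G` be a finite graph and let `C` be the edge set of a closed trail of `G`: every vertex has
even degree in `C` and any two edges of `C` are joined by a chain of edges of `C` in which
consecutive edges share a vertex. Suppose that `G` without the edges of `C` is connected (every
nonempty proper vertex set is left by an edge outside `C`). Let `α` be even and let `p` be a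
weighting of the edges by even numbers which is equal to `α` outside `C`, with `α ≤ 2 p(e)` and
`p(e) ≤ p(f) + 4 ⌊α / 4⌋` for all edges `e`, `f` of `C`. Then `(G, p)` has a circuit cover if and
only if `p` lies in the cone and in the lattice of the circuits. -/
theorem result (V E : Type) [Fintype V] [DecidableEq V] [Fintype E] [DecidableEq E]
    (G : MGraph V E) (C : Finset E) (heven : ∀ v, Even (G.deg C v))
    (hconn : ∀ e ∈ C, ∀ f ∈ C,
      Relation.ReflTransGen (fun a b => b ∈ C ∧ ∃ v, v ∈ G.ends a ∧ v ∈ G.ends b) e f)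
    (hoff : ∀ B : Finset V, B.Nonempty → B ≠ Finset.univ →
      ∃ e, e ∉ C ∧ (∃ x ∈ G.ends e, x ∈ B) ∧ ∃ x ∈ G.ends e, x ∉ B)
    (α : ℕ) (hα : Even α) (p : E → ℕ) (hp : ∀ e, Even (p e)) (hC : ∀ e, e ∉ C → p e = α)
    (hlow : ∀ e ∈ C, α ≤ 2 * p e) (hup : ∀ e ∈ C, ∀ f ∈ C, p e ≤ p f + 4 * (α / 4)) :
    InIntCone G p ↔ InCone G p ∧ InLat G p :=
  Pool.Agent.K4H75.EC.closed_trail G C heven hconn hoff p α hα hp hC hlow hup

end Pool.Agent.Results.MP_20b97f_co.ClosedTrail
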