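import Pool.Agent.K4H75.EC.Tree

set_option autoImplicit false

namespace Pool.Agent.Results.MP_20b97f_co.ConstantOnTree

open Pool.Agent.H126R2.CDC (MGraph)
open Pool.Agent.H126R2.NC (InCone InLat InIntCone)

/-- Let `G` be a finite graph and let `p` be a weighting of its edges by natural numbers, even or
not. Suppose that `p` has a constant value `c` on the edges of a connected spanning subgraph `H`,
for instance on a spanning tree (every nonempty proper vertex set is left by an edge of `H`). Let
`D` be a set of edges outside `H` in which every vertex has even degree (for instance `D` empty) and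
let `m` be a natural number. Suppose that every edge `e` outside `H` has
`(2 c + 13) / 3 ≤ p(e) - m [e ∈ D] ≤ (4 c - 32) / 3`. Then `(G, p)` has a circuit cover if and only
if `p` lies in the cone and in the lattice of the circuits. -/
theorem result (V E : Type) [Fintype V] [DecidableEq V] [Fintype E] [DecidableEq E]
    (G : MGraph V E) (H : Finset E)
    (hH : ∀ B : Finset V, B.Nonempty → B ≠ Finset.univ →
      ∃ e ∈ H, (∃ x ∈ G.ends e, x ∈ B) ∧ ∃ x ∈ G.ends e, x ∉ B)
    (D : Finset E) (hD : ∀ v, Even (G.deg D v)) (hDH : ∀ e ∈ H, e ∉ D)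
    (m c : ℕ) (p : E → ℕ) (hc : ∀ e ∈ H, p e = c)
    (hlow : ∀ e, e ∉ H → 2 * c + 13 + 3 * (m * if e ∈ D then 1 else 0) ≤ 3 * p e)
    (hup : ∀ e, e ∉ H → 3 * p e + 32 ≤ 4 * c + 3 * (m * if e ∈ D then 1 else 0)) :
    InIntCone G p ↔ InCone G p ∧ InLat G p :=
  Pool.Agent.K4H75.EC.tree_constant G H hH D hD hDH m c p hc hlow hup

end Pool.Agent.Results.MP_20b97f_co.ConstantOnTree
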