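import Pool.Agent.K4H75.EC.Pack

set_option autoImplicit false

namespace Pool.Agent.Results.MP_20b97f_co.DisjointComplements

open Pool.Agent.H126R2.CDC (MGraph)
open Pool.Agent.H126R2.NC (InCone InLat InIntCone)

/-- Let `G` be a finite graph and let `X 1, …, X k` be pairwise disjoint sets of edges such that each
of the graphs `G - X i` is two-edge-connected (every nonempty proper vertex set is left by at least
two edges outside `X i`). Let `p` be a weighting of the edges by natural numbers, even or not, which
has a constant value `c` on the edges outside all the sets `X i` and differs from `c` by at most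
`d i` on `X i`, where `∑ (d i + 9) + 1 ≤ c`. Then `(G, p)` has a circuit cover if and only if `p`
lies in the cone and in the lattice of the circuits. -/
theorem result (V E : Type) [Fintype V] [DecidableEq V] [Fintype E] [DecidableEq E]
    (G : MGraph V E) (k : ℕ) (X : Fin k → Finset E) (hdis : ∀ i j, i ≠ j → Disjoint (X i) (X j))
    (hX : ∀ i, ∀ B : Finset V, B.Nonempty → B ≠ Finset.univ →
      2 ≤ ((Finset.univ \ X i).filter
        (fun e => (∃ x ∈ G.ends e, x ∈ B) ∧ ∃ x ∈ G.ends e, x ∉ B)).card)
    (c : ℕ) (d : Fin k → ℕ) (p : E → ℕ) (hc : ∀ e, (∀ i, e ∉ X i) → p e = c)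
    (hlow : ∀ i, ∀ e ∈ X i, c ≤ p e + d i) (hup : ∀ i, ∀ e ∈ X i, p e ≤ c + d i)
    (hd : ∑ i, (d i + 9) + 1 ≤ c) :
    InIntCone G p ↔ InCone G p ∧ InLat G p :=
  Pool.Agent.K4H75.EC.disjoint_complements G k X hdis hX c d p hc hlow hup hd

end Pool.Agent.Results.MP_20b97f_co.DisjointComplements
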