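import Pool.Agent.K4H75.EC.Main

set_option autoImplicit false

namespace Pool.Agent.Results.MP_20b97f_co.EvenSubgraph

open Pool.Agent.H126R2.CDC (MGraph)
open Pool.Agent.H126R2.NC (InCone InLat InIntCone)

/-- Let `G` be a finite graph and let `D` be a set of edges in which every vertex has even degree
(an edge-disjoint union of any number of circuits). Suppose that `G` without the edges of `D` is
connected (every nonempty proper vertex set is left by an edge outside `D`). Let `α` be even and let
`p` be a weighting of the edges by even numbers which is equal to `α` outside `D`, with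
`α ≤ p(e) + 10 ⌊α / 32⌋` and `p(e) ≤ p(f) + 20 ⌊α / 32⌋` for all edges `e`, `f` of `D`. Then
`(G, p)` has a circuit cover if and only if `p` lies in the cone and in the lattice of the
circuits. -/
theorem result (V E : Type) [Fintype V] [DecidableEq V] [Fintype E] [DecidableEq E]
    (G : MGraph V E) (D : Finset E) (heven : ∀ v, Even (G.deg D v))
    (hoff : ∀ B : Finset V, B.Nonempty → B ≠ Finset.univ →
      ∃ e, e ∉ D ∧ (∃ x ∈ G.ends e, x ∈ B) ∧ ∃ x ∈ G.ends e, x ∉ B)
    (α : ℕ) (hα : Even α) (p : E → ℕ) (hp : ∀ e, Even (p e)) (hD : ∀ e, e ∉ D → p e = α)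
    (hlow : ∀ e ∈ D, α ≤ p e + 10 * (α / 32))
    (hup : ∀ e ∈ D, ∀ f ∈ D, p e ≤ p f + 20 * (α / 32)) :
    InIntCone G p ↔ InCone G p ∧ InLat G p :=
  Pool.Agent.K4H75.EC.even_set G D heven hoff p α hα hp hD hlow hup

end Pool.Agent.Results.MP_20b97f_co.EvenSubgraph
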